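import Pool.Agent.Results.MP_64d585_al.Extension
import Pool.Agent.U955.QN.Main

/-!
# MP_64d585_al, Q2: extension of invariant `(HA, φ)`-neutral subspaces with prescribed spectrum
-/

set_option autoImplicit false

namespace Pool.Agent.Results.MP_64d585_al.PrescribedSpectrum

open Quaternion MulOpposite Matrix Pool.Agent.R713
open Pool.Agent.Results.MP_64d585_al.Extension (NonstandardInvolution Sub phiT pair Invariant Neutral
  Nonneg Nonpos lin qherm skew pair_neg phiT_mul phi_one finiteV)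

variable {n : ℕ} {φ : ℍ[ℝ] →ₗ[ℝ] ℍ[ℝ]}

/-- `μ` is an eigenvalue of `A|_M`: `A x = x μ` for some nonzero `x ∈ M` -/
def EigOn (A : Matrix (Fin n) (Fin n) ℍ[ℝ]) (M : Sub n) (μ : ℍ[ℝ]) : Prop :=
  ∃ x ∈ M, x ≠ 0 ∧ A *ᵥ x = fun i => x i * μ

/-- the first three properties of a c-set: a set of eigenvalues of `A` with nonzero real part, closed
under similarity, which does not contain the negative of one of its elements -/
structure PreCSet (A : Matrix (Fin n) (Fin n) ℍ[ℝ]) (S : Set ℍ[ℝ]) : Prop where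
  eig : ∀ μ ∈ S, EigOn A ⊤ μ
  re_ne : ∀ μ ∈ S, μ.re ≠ 0
  sim : ∀ μ ∈ S, ∀ q : ℍ[ℝ], q ≠ 0 → q⁻¹ * μ * q ∈ S
  neg : ∀ μ ∈ S, -μ ∉ S

/-- a c-set of `A`: inclusion-maximal with these properties -/
structure IsCSet (A : Matrix (Fin n) (Fin n) ℍ[ℝ]) (S : Set ℍ[ℝ]) : Prop extends PreCSet A S where
  maximal : ∀ S' : Set ℍ[ℝ], PreCSet A S' → S ⊆ S' → S' = S

/-- the eigenvalues of `A|_M` with nonzero real part -/
def spec (A : Matrix (Fin n) (Fin n) ℍ[ℝ]) (M : Sub n) : Set ℍ[ℝ] := {μ | EigOn A M μ ∧ μ.re ≠ 0}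

lemma cset {A : Matrix (Fin n) (Fin n) ℍ[ℝ]} {S : Set ℍ[ℝ]} (h : IsCSet A S) :
    Pool.Agent.U955.QN.CSet (lin A) S := by
  refine ⟨⟨?_, h.re_ne, h.sim, h.neg⟩, ?_⟩
  · intro μ hμ
    obtain ⟨x, -, h0, hx⟩ := h.eig μ hμ
    exact ⟨x, trivial, h0, hx⟩
  · intro S' hS'
    refine h.maximal S' ⟨?_, hS'.re_ne, hS'.sim, hS'.neg⟩
    intro μ hμ
    obtain ⟨x, -, h0, hx⟩ := hS'.eig μ hμ
    exact ⟨x, trivial, h0, hx⟩

theorem main (h : NonstandardInvolution φ) {β : ℍ[ℝ]} (hβ : φ β = -β) (hnβ : normSq β = 1)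
    (G A : Matrix (Fin n) (Fin n) ℍ[ℝ]) (hG : phiT φ G = -G)
    (hA : ∀ x y, β⁻¹ * pair φ G (A *ᵥ x) y = -(β⁻¹ * pair φ G x (A *ᵥ y)))
    (hrad : ∀ x, G *ᵥ x = 0 → A *ᵥ x = 0)
    (N : Sub n) (hN : Invariant A N) (hneu : Neutral φ G N) (S : Set ℍ[ℝ]) (hS : IsCSet A S)
    (hS0 : spec A N ⊆ S) :
    ∃ L : Sub n, N ≤ L ∧ Invariant A L ∧ Extension.Maximal (Nonneg φ β G) L ∧ spec A L = S := by
  have hn : ∀ M : Sub n, Nonneg φ β G M ↔
      QNonneg (fun x y : Fin n → ℍ[ℝ] => β⁻¹ * pair φ G x y) M := by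
    intro M
    constructor
    · intro h x hx
      obtain ⟨r, hr, he⟩ := h x hx
      simp only [he]
      rw [Quaternion.re_coe]
      exact hr
    · intro h' x hx
      exact ⟨_, h' x hx, (qherm h hβ hnβ G hG).real x⟩
  obtain ⟨L, h1, h2, h3, h4, h5⟩ := Pool.Agent.U955.QN.extend_cset (qherm h hβ hnβ G hG) (lin A) hA
    (by
      intro x hx
      apply hrad
      ext1 i
      have h1 : β⁻¹ * pair φ G (Pi.single i 1 : Fin n → ℍ[ℝ]) x = 0 := by
        rw [(qherm h hβ hnβ G hG).symm x (Pi.single i 1), hx, star_zero]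
      have hb : β⁻¹ ≠ 0 := by
        intro h0
        rw [inv_eq_zero] at h0
        rw [h0] at hnβ
        simp at hnβ
      have h2 : pair φ G (Pi.single i 1 : Fin n → ℍ[ℝ]) x = (G *ᵥ x) i := by
        have : (fun j => φ ((Pi.single i 1 : Fin n → ℍ[ℝ]) j)) = Pi.single i 1 := by
          ext1 j
          rcases eq_or_ne j i with rfl | hj
          · rw [Pi.single_eq_same, phi_one h]
          · rw [Pi.single_eq_of_ne hj, map_zero]
        rw [pair, this, single_dotProduct, one_mul]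
      rw [h2] at h1
      exact (mul_eq_zero.1 h1).resolve_left hb)
    N hN (fun x hx y hy => by simp only [hneu y hy x hx, mul_zero]) S (cset hS)
    (fun μ hre hμ => hS0 ⟨hμ, hre⟩)
  refine ⟨L, h1, h2, ⟨(hn L).2 h3, fun M hM hM' => h4 M hM ((hn M).1 hM')⟩, ?_⟩
  ext μ
  exact h5 μ

/-- Let `φ` be a nonstandard involution, `φ β = -β`, `|β| = 1`, let `H` be invertible and
`φ`-hermitian, let `A` be `(H, φ)`-skewsymmetric and let `N` be an `A`-invariant `(HA, φ)`-neutral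
subspace such that the set `S₀` of the eigenvalues of `A|_N` with nonzero real part does not contain
the negative of one of its elements. For every c-set `S ⊇ S₀` there are `A`-invariant subspaces
containing `N` that are maximal `(HA, φ)`-nonnegative and maximal `(HA, φ)`-nonpositive,
respectively, such that for each of them the set of eigenvalues with nonzero real part is `S`. -/
theorem result (φ : ℍ[ℝ] →ₗ[ℝ] ℍ[ℝ]) (hφ : NonstandardInvolution φ) (β : ℍ[ℝ])
    (hβ : φ β = -β) (hβ1 : ‖β‖ = 1) (n : ℕ) (H A : Matrix (Fin n) (Fin n) ℍ[ℝ])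
    (hHu : IsUnit H) (hH : phiT φ H = H) (hA : H * A = -(phiT φ A * H)) (N : Sub n)
    (hN : Invariant A N) (hneu : Neutral φ (H * A) N)
    (_hN0 : ∀ μ ∈ spec A N, -μ ∉ spec A N) (S : Set ℍ[ℝ]) (hS : IsCSet A S)
    (hS0 : spec A N ⊆ S) :
    (∃ L : Sub n, N ≤ L ∧ Invariant A L ∧ Extension.Maximal (Nonneg φ β (H * A)) L ∧ spec A L = S) ∧
    (∃ L : Sub n, N ≤ L ∧ Invariant A L ∧ Extension.Maximal (Nonpos φ β (H * A)) L ∧ spec A L = S) := by
  have hnβ : normSq β = 1 := by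
    rw [Quaternion.normSq_eq_norm_mul_self, hβ1, mul_one]
  have hG : phiT φ (H * A) = -(H * A) := by
    rw [phiT_mul hφ, hH, hA, neg_neg]
  have hrad : ∀ x, (H * A) *ᵥ x = 0 → A *ᵥ x = 0 := by
    intro x hx
    obtain ⟨u, rfl⟩ := hHu
    have h1 : (↑u⁻¹ : Matrix (Fin n) (Fin n) ℍ[ℝ]) *ᵥ (((u : Matrix (Fin n) (Fin n) ℍ[ℝ]) * A) *ᵥ x)
        = A *ᵥ x := by
      rw [Matrix.mulVec_mulVec, ← mul_assoc, Units.inv_mul, one_mul]
    rw [← h1, hx, Matrix.mulVec_zero]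
  refine ⟨main hφ hβ hnβ (H * A) A hG (skew hφ β H A hA) hrad N hN hneu S hS hS0, ?_⟩
  have hG' : phiT φ (-(H * A)) = -(-(H * A)) := by
    rw [← hG]
    ext1 i j
    simp only [phiT, Matrix.of_apply, Matrix.neg_apply]
    rw [← map_neg, ← Matrix.neg_apply, ← hG]
    simp [phiT]
  obtain ⟨L, h1, h2, ⟨h3, h4⟩, h5⟩ := main hφ hβ hnβ (-(H * A)) A hG' (by
      intro x y
      rw [pair_neg, pair_neg, mul_neg, mul_neg, skew hφ β H A hA])
    (by
      intro x hx
      apply hrad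
      rw [Matrix.neg_mulVec] at hx
      exact neg_eq_zero.1 hx)
    N hN (by
      intro x hx y hy
      rw [pair_neg, hneu x hx y hy, neg_zero]) S hS hS0
  have hn : ∀ M : Sub n, Nonneg φ β (-(H * A)) M ↔ Nonpos φ β (H * A) M := by
    intro M
    constructor
    · intro h x hx
      obtain ⟨r, hr, he⟩ := h x hx
      refine ⟨-r, by linarith, ?_⟩
      rw [pair_neg, mul_neg] at he
      rw [Quaternion.coe_neg, ← he, neg_neg]
    · intro h x hx
      obtain ⟨r, hr, he⟩ := h x hx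
      refine ⟨-r, by linarith, ?_⟩
      rw [pair_neg, mul_neg, he, Quaternion.coe_neg]
  exact ⟨L, h1, h2, ⟨(hn L).1 h3, fun M hM hM' => h4 M hM ((hn M).2 hM')⟩, h5⟩

end Pool.Agent.Results.MP_64d585_al.PrescribedSpectrum
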